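import Pool.Agent.H8.IETCore2

open Topology Filter Set Pool.Agent.H8.IET

namespace Pool.Agent.Results.MP_ad338c_an.NotStablyRealizable

universe u

/-- The group of permutations whose class lies in `Γ`. -/
def pre (Γ : Subgroup PC) : Subgroup (Equiv.Perm Circ) where
  carrier := {f | ∃ hf : f ∈ pcSubgroup, toPC (PChat.mk f hf) ∈ Γ}
  one_mem' := ⟨one_mem _, by
    have : PChat.mk 1 (one_mem _) = 1 := rfl
    rw [this, map_one]; exact one_mem _⟩
  mul_mem' := by
    rintro f g ⟨hf, hf'⟩ ⟨hg, hg'⟩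
    refine ⟨mul_mem hf hg, ?_⟩
    have : PChat.mk (f * g) (mul_mem hf hg) = PChat.mk f hf * PChat.mk g hg := rfl
    rw [this, map_mul]; exact mul_mem hf' hg'
  inv_mem' := by
    rintro f ⟨hf, hf'⟩
    refine ⟨inv_mem hf, ?_⟩
    have : PChat.mk f⁻¹ (inv_mem hf) = (PChat.mk f hf)⁻¹ := rfl
    rw [this, map_inv]; exact inv_mem hf'

/-- A lift of a subgroup gives a homomorphism on the preimage. -/
def preHom {Γ : Subgroup PC} {Y : Type u} (φ : Γ →* Equiv.Perm (Circ ⊕ Y)) :
    pre Γ →* Equiv.Perm (Circ ⊕ Y) where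
  toFun h := φ ⟨toPC (PChat.mk h h.2.fst), h.2.snd⟩
  map_one' := by
    rw [← map_one φ]
    congr 1
  map_mul' f g := by
    rw [← map_mul φ]
    congr 1

lemma mem_pre {Λ : AddSubgroup Circ} {f : Equiv.Perm Circ} (hf : IsFlipExchange Λ f) :
    f ∈ pre (IETflip Λ) := ⟨hf.mem_pcSubgroup, ⟨PChat.mk f hf.mem_pcSubgroup, rfl, hf⟩⟩

lemma isFlipExchange_swp {Λ : AddSubgroup Circ} {A : Set Circ} {t : Circ}
    (h : ∀ x ∈ A, x + t ∉ A) (ht : t ∈ Λ) (hA : (frontier A).Finite) (hAΛ : frontier A ⊆ Λ) :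
    IsFlipExchange Λ (swp A t h) := by
  have hfix : ∀ (B : Set Circ) (x : Circ), x ∉ frontier B → x ∉ B → ∀ᶠ y in 𝓝 x, y ∉ B := by
    intro B x h1 h2
    have h3 : x ∉ closure B := fun h4 => h1 ⟨h4, fun h5 => h2 (interior_subset h5)⟩
    exact mem_of_superset (isClosed_closure.isOpen_compl.mem_nhds h3)
      (compl_subset_compl.2 subset_closure)
  have hin : ∀ (B : Set Circ) (x : Circ), x ∉ frontier B → x ∈ B → ∀ᶠ y in 𝓝 x, y ∈ B := by
    intro B x h1 h2
    have h3 : x ∈ interior B := by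
      by_contra h4
      exact h1 ⟨subset_closure h2, h4⟩
    exact mem_interior_iff_mem_nhds.1 h3
  let B : Set Circ := (fun y => y - t) ⁻¹' A
  have hc : Continuous (fun y : Circ => y - t) := by fun_prop
  have hBfr : frontier B ⊆ (fun y => y - t) ⁻¹' (frontier A) := hc.frontier_preimage_subset _
  refine ⟨frontier A ∪ (fun y => y - t) ⁻¹' (frontier A),
    hA.union (hA.preimage (sub_left_injective).injOn), ?_, ?_⟩
  · rintro x (hx | hx)
    · exact hAΛ hx
    · have h1 : x - t ∈ Λ := hAΛ hx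
      have h2 := add_mem h1 ht
      rwa [sub_add_cancel] at h2
  · intro x hx
    rw [mem_union, not_or] at hx
    have hxB : x ∉ frontier B := fun h' => hx.2 (hBfr h')
    by_cases hxA : x ∈ A
    · refine ⟨t, ht, Or.inl ?_⟩
      filter_upwards [hin A x hx.1 hxA] with y hy
      exact swp_mem h hy
    · by_cases hxA' : x ∈ B
      · refine ⟨-t, neg_mem ht, Or.inl ?_⟩
        filter_upwards [hin B x hxB hxA'] with y hy
        have hy' : y - t ∈ A := hy
        rw [swp_sub_mem h hy', sub_eq_add_neg]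
      · refine ⟨0, zero_mem _, Or.inl ?_⟩
        filter_upwards [hfix A x hx.1 hxA, hfix B x hxB hxA'] with y hy hy'
        have hy'' : y - t ∉ A := hy'
        rw [swp_not h hy hy'', add_zero]

theorem not_stablyRealizable (Λ : AddSubgroup Circ) (hΛ : ∃ α ∈ Λ, addOrderOf α = 0) :
    ¬ StablyRealizable.{u} (IETflip Λ) := by
  obtain ⟨α, hα, hord⟩ := hΛ
  rintro ⟨Y, φ, hφ⟩
  have hz : ∀ t ∈ AddSubgroup.zmultiples α, t ∈ Λ := fun t ht =>
    AddSubgroup.zmultiples_le_of_mem hα ht
  refine Setup.false_of_setup (Y := Y)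
    { H := pre (IETflip Λ)
      Φ := preHom φ
      near := fun h => hφ (PChat.mk h h.2.fst) h.2.snd
      triv := ?_
      α := α
      hα := hord
      rot := ?_
      neg := ?_
      swp_mem := ?_ }
  · intro h hh
    have h1 : toPC (PChat.mk h h.2.fst) = 1 := (QuotientGroup.eq_one_iff _).2 hh
    show φ ⟨toPC (PChat.mk h h.2.fst), h.2.snd⟩ = 1
    have h2 : (⟨toPC (PChat.mk h h.2.fst), h.2.snd⟩ : IETflip Λ) = 1 := Subtype.ext h1
    rw [h2, map_one]
  · apply mem_pre
    exact ⟨∅, finite_empty, empty_subset _, fun x _ => ⟨α, hα, Or.inl (by simp)⟩⟩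
  · apply mem_pre
    exact ⟨∅, finite_empty, empty_subset _, fun x _ => ⟨0, zero_mem _, Or.inr (by simp)⟩⟩
  · intro A t h ht hA hAα
    exact mem_pre (isFlipExchange_swp h (hz t ht) hA (fun y hy => hz y (hAα hy)))

/-- For every subgroup `Λ` of the circle `S = ℝ/ℤ` containing an element of infinite order (in
particular for every virtually infinite cyclic `Λ`), the group of interval exchanges with flips
over `Λ` is neither realizable nor stably realizable. -/
theorem result (Λ : AddSubgroup Circ) (hΛ : ∃ α ∈ Λ, addOrderOf α = 0) :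
    ¬ Realizable (IETflip Λ) ∧ ¬ StablyRealizable.{u} (IETflip Λ) :=
  ⟨fun h => not_stablyRealizable.{0} Λ hΛ h.stablyRealizable, not_stablyRealizable.{u} Λ hΛ⟩

end Pool.Agent.Results.MP_ad338c_an.NotStablyRealizable
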